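import Pool.Agent.R532.Wc5

/-!
# Counting the integer parts of sums of `k` `k`-th powers with generic real coefficients
-/

set_option autoImplicit false

namespace Pool.Agent.Results.MP_4060c9_nt.GenericCoefficients

open MeasureTheory Filter

theorem result (k : ℕ) (hk : 2 ≤ k) :
    ∀ᵐ l : Fin k → ℝ, (∀ i, 0 < l i) → ∀ ε : ℝ, 0 < ε → ∀ᶠ Y : ℝ in atTop,
      Y / Real.log Y ^ (1 + ε) ≤
        (({n : ℕ | 0 < n ∧ (n : ℝ) ≤ Y ∧ ∃ x : Fin k → ℕ, (∀ i, 0 < x i) ∧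
          ⌊∑ i, l i * (x i : ℝ) ^ k⌋₊ = n}.ncard : ℕ) : ℝ) :=
  Pool.Agent.R532.Wa.log_count k hk

end Pool.Agent.Results.MP_4060c9_nt.GenericCoefficients
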